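import Mathlib

set_option autoImplicit false
set_option linter.unusedSectionVars false

namespace Pool.Agent.P.MP_27be11_an

open Set Filter Topology

/-- admissible right topological group -/
class Adm (G : Type*) [Group G] [TopologicalSpace G] : Prop where
  right : ∀ g : G, Continuous fun x => x * g
  dense : Dense {x : G | Continuous fun y => x * y}

variable {G : Type*} [Group G] [TopologicalSpace G] [T2Space G] [LocallyCompactSpace G]
  [SigmaCompactSpace G] [Adm G]

theorem cR (g : G) : Continuous fun x : G => x * g := Adm.right g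

/-- right translation as a homeomorphism -/
def rHomeo (g : G) : G ≃ₜ G where
  toEquiv := Equiv.mulRight g
  continuous_toFun := cR g
  continuous_invFun := cR g⁻¹

theorem centre_inv {x : G} (hx : Continuous fun y : G => x * y) :
    Continuous fun y : G => x⁻¹ * y := by
  have hcl : ∀ n, IsClosed ((fun y => x * y) '' compactCovering G n) := fun n =>
    ((isCompact_compactCovering G n).image hx).isClosed
  have hU : ⋃ n, (fun y => x * y) '' compactCovering G n = univ := by
    rw [← image_iUnion, iUnion_compactCovering, image_univ]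
    exact (mul_left_surjective x).range_eq
  obtain ⟨n, w, hw⟩ := nonempty_interior_of_iUnion_of_closed hcl hU
  have hon : ContinuousOn (fun y : G => x⁻¹ * y) ((fun y => x * y) '' compactCovering G n) := by
    rw [continuousOn_iff_isClosed]
    intro t ht
    refine ⟨(fun y => x * y) '' (t ∩ compactCovering G n),
      (((isCompact_compactCovering G n).inter_left ht).image hx).isClosed, ?_⟩
    ext z
    constructor
    · rintro ⟨h1, y, hy, rfl⟩
      refine ⟨⟨y, ⟨?_, hy⟩, rfl⟩, y, hy, rfl⟩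
      simpa using h1
    · rintro ⟨⟨y, ⟨h1, -⟩, rfl⟩, h2⟩
      exact ⟨by simpa using h1, h2⟩
  have hat : ContinuousAt (fun y : G => x⁻¹ * y) w :=
    hon.continuousAt (mem_interior_iff_mem_nhds.mp hw)
  rw [continuous_iff_continuousAt]
  intro z
  have e : (fun y : G => x⁻¹ * y) =
      (fun t => t * (w⁻¹ * z)) ∘ (fun y : G => x⁻¹ * y) ∘ fun y => y * (z⁻¹ * w) := by
    ext y; simp [mul_assoc]
  rw [e]
  refine (cR _).continuousAt.comp (ContinuousAt.comp ?_ (cR _).continuousAt)
  simpa using hat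

/-- the topological centre -/
def centre (G : Type*) [Group G] [TopologicalSpace G] [T2Space G] [LocallyCompactSpace G]
    [SigmaCompactSpace G] [Adm G] : Subgroup G where
  carrier := {x : G | Continuous fun y => x * y}
  one_mem' := by simpa using continuous_id'
  mul_mem' := by
    intro a b ha hb
    have : Continuous fun y : G => a * (b * y) := Continuous.comp (g := fun y => a * y) ha hb
    simpa [mul_assoc] using this
  inv_mem' := centre_inv

theorem centre_dense : Dense (centre G : Set G) := Adm.dense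

theorem exists_centre {x y : G} {U V : Set G} (hU : IsOpen U) (hV : IsOpen V) {h : G}
    (h1 : h * x ∈ U) (h2 : h * y ∈ V) : ∃ l ∈ centre G, l * x ∈ U ∧ l * y ∈ V := by
  obtain ⟨l, hl, hl'⟩ := centre_dense.inter_open_nonempty
    ((fun t => t * x) ⁻¹' U ∩ (fun t => t * y) ⁻¹' V)
    ((hU.preimage (cR x)).inter (hV.preimage (cR y))) ⟨h, h1, h2⟩
  exact ⟨l, hl', hl⟩

theorem exists_nhds_mul {K : Set G} (hK : IsCompact K) :
    ∃ W ∈ 𝓝 (1 : G), ∃ C, IsCompact C ∧ ∀ k ∈ K, ∀ w ∈ W, k * w ∈ C := by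
  obtain ⟨C, hC', hKC⟩ := exists_compact_superset hK
  have hCC' : interior C ⊆ C := interior_subset
  let E := CompactExhaustion.choice G
  have hcl : ∀ n, IsClosed {z : G | ∀ l ∈ interior C ∩ centre G, l * z ∈ E n} := by
    intro n
    have : {z : G | ∀ l ∈ interior C ∩ centre G, l * z ∈ E n} =
        ⋂ l ∈ interior C ∩ (centre G : Set G), (fun z => l * z) ⁻¹' E n := by
      ext z; simp
    rw [this]
    exact isClosed_biInter fun l hl => (E.isCompact n).isClosed.preimage hl.2
  have hU : ⋃ n, {z : G | ∀ l ∈ interior C ∩ centre G, l * z ∈ E n} = univ := by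
    refine eq_univ_of_forall fun z => ?_
    obtain ⟨n, hn⟩ := E.exists_superset_of_isCompact (hC'.image (cR z))
    exact mem_iUnion.mpr ⟨n, fun l hl => hn ⟨l, hCC' hl.1, rfl⟩⟩
  obtain ⟨n, z0, hz0⟩ := nonempty_interior_of_iUnion_of_closed hcl hU
  refine ⟨(fun w => w * z0) ⁻¹' {z : G | ∀ l ∈ interior C ∩ centre G, l * z ∈ E n}, ?_,
    (fun t => t * z0⁻¹) '' E n, (E.isCompact n).image (cR _), fun k hk w hw => ?_⟩
  · refine (cR z0).continuousAt.preimage_mem_nhds ?_
    simpa using mem_interior_iff_mem_nhds.mp hz0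
  · refine ⟨k * (w * z0), ?_, by simp [mul_assoc]⟩
    have h1 : k ∈ closure (interior C ∩ centre G) :=
      centre_dense.open_subset_closure_inter isOpen_interior (hKC hk)
    exact closure_minimal (t := (fun c => c * (w * z0)) ⁻¹' E n) (fun l hl => hw l hl)
      ((E.isCompact n).isClosed.preimage (cR _)) h1

theorem exists_compact_mul {K L : Set G} (hK : IsCompact K) (hL : IsCompact L) :
    ∃ C, IsCompact C ∧ ∀ k ∈ K, ∀ l ∈ L, k * l ∈ C := by
  obtain ⟨W, hW, C, hC, h⟩ := exists_nhds_mul hK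
  refine hL.induction_on (p := fun A => ∃ C, IsCompact C ∧ ∀ k ∈ K, ∀ l ∈ A, k * l ∈ C)
    ⟨∅, isCompact_empty, by simp⟩ ?_ ?_ ?_
  · rintro s t hst ⟨C, h1, h2⟩
    exact ⟨C, h1, fun k hk l hl => h2 k hk l (hst hl)⟩
  · rintro s t ⟨C, h1, h2⟩ ⟨D, h3, h4⟩
    refine ⟨C ∪ D, h1.union h3, fun k hk l hl => ?_⟩
    rcases hl with hl | hl
    · exact Or.inl (h2 k hk l hl)
    · exact Or.inr (h4 k hk l hl)
  · intro z _
    refine ⟨(fun t => t * z⁻¹) ⁻¹' W, mem_nhdsWithin_of_mem_nhds ?_,
      (fun t => t * z) '' C, hC.image (cR z), fun k hk l hl => ?_⟩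
    · refine (cR z⁻¹).continuousAt.preimage_mem_nhds ?_
      simpa using hW
    · exact ⟨k * (l * z⁻¹), h k hk _ hl, by simp [mul_assoc]⟩

theorem exists_compact_inv {K : Set G} (hK : IsCompact K) :
    ∃ C, IsCompact C ∧ ∀ k ∈ K, k⁻¹ ∈ C := by
  have hU : ⋃ n, closure (compactCovering G n)⁻¹ = univ := by
    refine eq_univ_of_forall fun z => ?_
    obtain ⟨n, hn⟩ := exists_mem_compactCovering z⁻¹
    exact mem_iUnion.mpr ⟨n, subset_closure hn⟩
  obtain ⟨n, z0, hz0⟩ := nonempty_interior_of_iUnion_of_closed (fun n => isClosed_closure) hU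
  obtain ⟨W, hW, C, hC, h⟩ := exists_nhds_mul (isCompact_compactCovering G n)
  have hO : ∀ x ∈ closure (compactCovering G n)⁻¹, x⁻¹ ∈ C := by
    intro x hx
    have h1 : (fun t => t * x⁻¹) ⁻¹' W ∈ 𝓝 x := by
      refine (cR x⁻¹).continuousAt.preimage_mem_nhds ?_
      simpa using hW
    obtain ⟨t, ht1, ht2⟩ := mem_closure_iff_nhds.mp hx _ h1
    have := h t⁻¹ ht2 _ ht1
    simpa using this
  refine hK.induction_on (p := fun A => ∃ C, IsCompact C ∧ ∀ k ∈ A, k⁻¹ ∈ C)
    ⟨∅, isCompact_empty, by simp⟩ ?_ ?_ ?_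
  · rintro s t hst ⟨C, h1, h2⟩
    exact ⟨C, h1, fun k hk => h2 k (hst hk)⟩
  · rintro s t ⟨C, h1, h2⟩ ⟨D, h3, h4⟩
    refine ⟨C ∪ D, h1.union h3, fun k hk => ?_⟩
    rcases hk with hk | hk
    · exact Or.inl (h2 k hk)
    · exact Or.inr (h4 k hk)
  · intro z _
    obtain ⟨D, hD, hD'⟩ := exists_compact_mul (isCompact_singleton (x := z⁻¹ * z0)) hC
    refine ⟨(fun t => t * (z⁻¹ * z0)) ⁻¹' closure (compactCovering G n)⁻¹,
      mem_nhdsWithin_of_mem_nhds ?_, D, hD, fun k hk => ?_⟩
    · refine (cR _).continuousAt.preimage_mem_nhds ?_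
      simpa using mem_interior_iff_mem_nhds.mp hz0
    · have := hD' _ rfl _ (hO _ hk)
      simpa [mul_assoc] using this

end Pool.Agent.P.MP_27be11_an
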