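import Pool.Agent.P.MP_27be11_an.Sigma

set_option autoImplicit false
set_option linter.unusedSectionVars false

namespace Pool.Agent.P.MP_27be11_an

open Set Filter Topology CompactlySupported

variable {G : Type*} [Group G] [TopologicalSpace G] [T2Space G] [LocallyCompactSpace G]
  [SigmaCompactSpace G] [Adm G]

/-- right translate of a function -/
def R (g : G) (f : C_c(G, ℝ)) : C_c(G, ℝ) :=
  ⟨⟨fun x => f (x * g), (map_continuous f).comp (cR g)⟩,
    f.hasCompactSupport.comp_homeomorph (rHomeo g)⟩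

theorem R_apply (g : G) (f : C_c(G, ℝ)) (x : G) : R g f x = f (x * g) := rfl

/-- functions constant on left cosets of `L` -/
def Inv (L : Subgroup G) : Submodule ℝ C_c(G, ℝ) where
  carrier := {f | ∀ x, ∀ y ∈ L, f (x * y) = f x}
  add_mem' := fun ha hb x y hy => by simp [ha x y hy, hb x y hy]
  zero_mem' := fun _ _ _ => rfl
  smul_mem' := fun c f hf x y hy => by simp [hf x y hy]

theorem mem_Inv {L : Subgroup G} {f : C_c(G, ℝ)} :
    f ∈ Inv L ↔ ∀ x, ∀ y ∈ L, f (x * y) = f x := Iff.rfl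

theorem Inv_anti {L L' : Subgroup G} (h : L ≤ L') : Inv L' ≤ Inv L :=
  fun _ hf x y hy => hf x y (h hy)

theorem R_mem_Inv {L : Subgroup G} [hL : L.Normal] {f : C_c(G, ℝ)} (hf : f ∈ Inv L) (g : G) :
    R g f ∈ Inv L := by
  intro x y hy
  have := hf (x * g) (g⁻¹ * y * g⁻¹⁻¹) (hL.conj_mem y hy g⁻¹)
  simpa [R_apply, mul_assoc] using this

theorem apply_out {L : Subgroup G} {f : C_c(G, ℝ)} (hf : f ∈ Inv L) (x y : G) :
    f (x * (QuotientGroup.mk y : G ⧸ L).out) = f (x * y) := by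
  obtain ⟨l, hl⟩ := QuotientGroup.mk_out_eq_mul L y
  rw [hl, ← mul_assoc, hf _ _ l.2]

theorem continuous_out {L : Subgroup G} {f : C_c(G, ℝ)} (hf : f ∈ Inv L) :
    Continuous fun q : G ⧸ L => f q.out := by
  refine (isOpenQuotientMap_mk L).isQuotientMap.continuous_iff.mpr ?_
  have : (fun q : G ⧸ L => f q.out) ∘ QuotientGroup.mk = f := by
    ext x
    simpa using apply_out hf 1 x
  rw [this]
  exact map_continuous f

theorem lc_quot (L : Subgroup G) : LocallyCompactSpace (G ⧸ L) :=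
  (isOpenQuotientMap_mk L).locallyCompactSpace

theorem sc_quot (L : Subgroup G) : SigmaCompactSpace (G ⧸ L) := by
  refine ⟨?_⟩
  rw [← (isOpenQuotientMap_mk L).surjective.range_eq]
  exact isSigmaCompact_range (isOpenQuotientMap_mk L).continuous

theorem exists_compact_preimage {L : Subgroup G} (hL : IsCompact (L : Set G)) {C : Set (G ⧸ L)}
    (hC : IsCompact C) : ∃ D : Set G, IsCompact D ∧ QuotientGroup.mk ⁻¹' C ⊆ D := by
  have h : ∃ D : Set G, IsCompact D ∧ C ⊆ QuotientGroup.mk '' D := by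
    refine hC.induction_on (p := fun A => ∃ D : Set G, IsCompact D ∧ A ⊆ QuotientGroup.mk '' D)
      ⟨∅, isCompact_empty, empty_subset _⟩ ?_ ?_ ?_
    · rintro s t hst ⟨D, h1, h2⟩
      exact ⟨D, h1, hst.trans h2⟩
    · rintro s t ⟨D, h1, h2⟩ ⟨D', h3, h4⟩
      exact ⟨D ∪ D', h1.union h3, by rw [image_union]; exact union_subset_union h2 h4⟩
    · intro q _
      obtain ⟨x, rfl⟩ := QuotientGroup.mk_surjective q
      obtain ⟨D, hD, hx⟩ := exists_compact_mem_nhds x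
      exact ⟨_, mem_nhdsWithin_of_mem_nhds ((isOpenQuotientMap_mk L).isOpenMap.image_mem_nhds hx),
        D, hD, Subset.rfl⟩
  obtain ⟨D, hD, hCD⟩ := h
  obtain ⟨D', hD', h'⟩ := exists_compact_mul hD hL
  refine ⟨D', hD', fun x hx => ?_⟩
  obtain ⟨d, hd, e⟩ := hCD hx
  simpa using h' d hd _ (QuotientGroup.eq.mp e)

theorem cutoff {K : Set G} (hK : IsCompact K) :
    ∃ χ ∈ Inv (NL (⊤ : Subgroup G)), 0 ≤ χ ∧ ∀ x ∈ K, χ x = 1 := by
  have := t2_quot (NL_closed (⊤ : Subgroup G))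
  have := lc_quot (NL (⊤ : Subgroup G))
  have hπ := (isOpenQuotientMap_mk (NL (⊤ : Subgroup G))).continuous
  obtain ⟨f, h1, -, h2, h3⟩ := exists_continuous_one_zero_of_isCompact (hK.image hπ)
    isClosed_empty (disjoint_empty _)
  obtain ⟨D, hD, hD'⟩ := exists_compact_preimage isCompact_NL_top h2
  refine ⟨⟨⟨fun x => f (QuotientGroup.mk x), f.continuous.comp hπ⟩,
    HasCompactSupport.intro hD fun x hx => ?_⟩, fun x y hy => ?_, fun x => (h3 _).1,
    fun x hx => h1 ⟨x, hx, rfl⟩⟩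
  · by_contra h
    exact hx (hD' (subset_tsupport _ h))
  · show f _ = f _
    rw [QuotientGroup.mk_mul_of_mem x hy]

theorem dom (f : C_c(G, ℝ)) : ∃ χ ∈ Inv (NL (⊤ : Subgroup G)), -χ ≤ f ∧ f ≤ χ := by
  obtain ⟨χ, h1, h2, h3⟩ := cutoff f.hasCompactSupport.isCompact
  obtain ⟨c, hc⟩ := (map_continuous f).bounded_above_of_compact_support f.hasCompactSupport
  have hc0 : 0 ≤ c := (norm_nonneg _).trans (hc 1)
  have key : ∀ x, |f x| ≤ c * χ x := by
    intro x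
    by_cases hx : x ∈ tsupport f
    · rw [h3 x hx, mul_one]; exact hc x
    · rw [image_eq_zero_of_notMem_tsupport hx, abs_zero]
      exact mul_nonneg hc0 (h2 x)
  exact ⟨c • χ, Submodule.smul_mem _ _ h1, fun x => (abs_le.mp (key x)).1,
    fun x => (abs_le.mp (key x)).2⟩

theorem extend (S : Submodule ℝ C_c(G, ℝ)) (hS : Inv (NL (⊤ : Subgroup G)) ≤ S) (φ : S →ₗ[ℝ] ℝ)
    (hφ : ∀ f : S, 0 ≤ (f : C_c(G, ℝ)) → 0 ≤ φ f) :
    ∃ μ : C_c(G, ℝ) →ₗ[ℝ] ℝ, (∀ f : S, μ f = φ f) ∧ ∀ f, 0 ≤ f → 0 ≤ μ f := by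
  let s : PointedCone ℝ C_c(G, ℝ) :=
    { carrier := {f | 0 ≤ f}
      add_mem' := fun ha hb x => add_nonneg (ha x) (hb x)
      zero_mem' := le_refl (0 : C_c(G, ℝ))
      smul_mem' := fun c f hf x => mul_nonneg c.2 (hf x) }
  refine riesz_extension s ⟨S, φ⟩ hφ fun f => ?_
  obtain ⟨χ, h1, h2, -⟩ := dom f
  exact ⟨⟨χ, hS h1⟩, neg_le_iff_add_nonneg'.mp h2⟩

/-- positive functionals extending `μ0` that are invariant on `Inv L` -/
def M (μ0 : C_c(G, ℝ) → ℝ) (L : Subgroup G) : Set (C_c(G, ℝ) → ℝ) :=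
  {μ | (∀ f h, μ (f + h) = μ f + μ h) ∧ (∀ (c : ℝ) f, μ (c • f) = c * μ f) ∧
    (∀ f, 0 ≤ f → 0 ≤ μ f) ∧ (∀ f ∈ Inv (NL (⊤ : Subgroup G)), μ f = μ0 f) ∧
    ∀ f ∈ Inv L, ∀ g, μ (R g f) = μ f}

theorem M_mono {μ0 : C_c(G, ℝ) → ℝ} {L : Subgroup G} {μ : C_c(G, ℝ) → ℝ} (h : μ ∈ M μ0 L)
    {f f' : C_c(G, ℝ)} (hf : f ≤ f') : μ f ≤ μ f' := by
  have h1 := h.1 f (f' - f)
  have h2 := h.2.2.1 _ (sub_nonneg.mpr hf)
  rw [add_sub_cancel] at h1
  linarith

theorem M_neg {μ0 : C_c(G, ℝ) → ℝ} {L : Subgroup G} {μ : C_c(G, ℝ) → ℝ} (h : μ ∈ M μ0 L)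
    (f : C_c(G, ℝ)) : μ (-f) = -μ f := by
  have := h.2.1 (-1) f
  rwa [show (-1 : ℝ) • f = -f by ext x; simp, neg_one_mul] at this

theorem isClosed_M (μ0 : C_c(G, ℝ) → ℝ) (L : Subgroup G) : IsClosed (M μ0 L) := by
  simp only [M, ofPred_and, ofPred_forall]
  refine (isClosed_iInter fun f => isClosed_iInter fun h => isClosed_eq (by fun_prop)
    (by fun_prop)).inter ((isClosed_iInter fun c => isClosed_iInter fun f =>
      isClosed_eq (by fun_prop) (by fun_prop)).inter ((isClosed_iInter fun f =>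
        isClosed_iInter fun _ => isClosed_le (by fun_prop) (by fun_prop)).inter
          ((isClosed_iInter fun f => isClosed_iInter fun _ =>
            isClosed_eq (by fun_prop) (by fun_prop)).inter (isClosed_iInter fun f =>
              isClosed_iInter fun _ => isClosed_iInter fun g =>
                isClosed_eq (by fun_prop) (by fun_prop)))))

theorem isCompact_M (μ0 : C_c(G, ℝ) → ℝ) (L : Subgroup G) : IsCompact (M μ0 L) := by
  choose χ h1 h2 h3 using dom (G := G)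
  refine (isCompact_univ_pi fun f => isCompact_Icc (a := -μ0 (χ f))
    (b := μ0 (χ f))).of_isClosed_subset (isClosed_M μ0 L) fun μ hμ f _ => ?_
  show μ f ∈ Icc (-μ0 (χ f)) (μ0 (χ f))
  rw [← hμ.2.2.2.1 _ (h1 f), ← M_neg hμ]
  exact ⟨M_mono hμ (h2 f), M_mono hμ (h3 f)⟩

theorem M_anti (μ0 : C_c(G, ℝ) → ℝ) {L L' : Subgroup G} (h : L ≤ L') : M μ0 L ⊆ M μ0 L' :=
  fun _ hμ => ⟨hμ.1, hμ.2.1, hμ.2.2.1, hμ.2.2.2.1, fun f hf => hμ.2.2.2.2 f (Inv_anti h hf)⟩

end Pool.Agent.P.MP_27be11_an
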