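import Pool.Agent.P.MP_27be11_an.Func

set_option autoImplicit false
set_option linter.unusedSectionVars false

namespace Pool.Agent.P.MP_27be11_an

open Set Filter Topology CompactlySupported

variable {G : Type*} [Group G] [TopologicalSpace G] [T2Space G] [LocallyCompactSpace G]
  [SigmaCompactSpace G] [Adm G]

theorem small_osc {c : Set (Subgroup G)} (hc : IsChain (· ≤ ·) c) (hne : c.Nonempty)
    (h1 : ∀ L ∈ c, IsClosed (sig L)) (h2 : ∀ L ∈ c, L ≤ NL ⊤) {f : C_c(G, ℝ)}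
    (hf : f ∈ Inv (sInf c)) {ε : ℝ} (hε : 0 < ε) :
    ∃ L ∈ c, ∀ x, ∀ y ∈ L, |f (x * y) - f x| < ε := by
  obtain ⟨K, hK, hK'⟩ := exists_compact_mul f.hasCompactSupport.isCompact isCompact_NL_top
  by_contra hcon
  push Not at hcon
  have := hne.to_subtype
  let A : c → Set (G × G) := fun L => (K ×ˢ K ∩ {p | ε ≤ |f p.2 - f p.1|}) ∩ phi ⁻¹' sig L.1
  have hcl : ∀ L, IsClosed (A L) := fun L =>
    ((hK.prod hK).isClosed.inter (isClosed_le continuous_const (by fun_prop))).inter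
      ((h1 _ L.2).preimage continuous_phi)
  obtain ⟨⟨x, z⟩, hxz⟩ := IsCompact.nonempty_iInter_of_directed_nonempty_isCompact_isClosed A
    (fun L L' => by
      rcases hc.total L.2 L'.2 with h | h
      · exact ⟨L, Subset.rfl, fun p hp => ⟨hp.1, h hp.2⟩⟩
      · exact ⟨L', fun p hp => ⟨hp.1, h hp.2⟩, Subset.rfl⟩)
    (fun L => by
      obtain ⟨x, y, hy, h⟩ := hcon L.1 L.2
      have hy' := h2 _ L.2 hy
      refine ⟨(x, x * y), ⟨?_, h⟩, by simpa [phi, mem_sig] using hy⟩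
      by_cases hx : x ∈ tsupport f
      · exact ⟨by simpa using hK' x hx 1 (one_mem _), hK' x hx y hy'⟩
      · have hxy : x * y ∈ tsupport f := by
          by_contra h'
          rw [image_eq_zero_of_notMem_tsupport hx, image_eq_zero_of_notMem_tsupport h'] at h
          simp at h
          linarith
        exact ⟨by simpa using hK' _ hxy y⁻¹ (inv_mem hy'),
          by simpa using hK' _ hxy 1 (one_mem _)⟩)
    (fun L => (hK.prod hK).of_isClosed_subset (hcl L) fun p hp => hp.1.1) hcl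
  have h3 : x⁻¹ * z ∈ sInf c := Subgroup.mem_sInf.mpr fun L hL => (mem_iInter.mp hxz ⟨L, hL⟩).2
  have h4 : ε ≤ |f z - f x| := (mem_iInter.mp hxz (Classical.arbitrary c)).1.2
  have h5 := hf x _ h3
  rw [mul_inv_cancel_left] at h5
  rw [h5, sub_self, abs_zero] at h4
  linarith

theorem approx {L : Subgroup G} (h1 : IsClosed (sig L)) {f : C_c(G, ℝ)} {ε : ℝ} (hε : 0 < ε)
    (h : ∀ x, ∀ y ∈ L, |f (x * y) - f x| < ε) :
    ∃ u : C(G, ℝ), (∀ x, ∀ y ∈ L, u (x * y) = u x) ∧ ∀ x, |f x - u x| ≤ 2 * ε := by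
  have := t2_quot h1
  have := lc_quot L
  have := sc_quot L
  obtain ⟨u, hu⟩ := exists_continuous_forall_mem_convex_of_local_const
    (t := fun q : G ⧸ L => ⋂ x ∈ {x : G | QuotientGroup.mk x = q},
      Icc (f x - 2 * ε) (f x + 2 * ε))
    (fun q => convex_iInter₂ fun _ _ => convex_Icc _ _) (fun q => by
      obtain ⟨x0, rfl⟩ := QuotientGroup.mk_surjective q
      refine ⟨f x0, ?_⟩
      have hU : {v : G | |f v - f x0| < ε} ∈ 𝓝 x0 :=
        (isOpen_lt (by fun_prop) continuous_const).mem_nhds (by simpa using hε)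
      filter_upwards [(isOpenQuotientMap_mk L).isOpenMap.image_mem_nhds hU]
      rintro _ ⟨v, hv, rfl⟩
      refine mem_iInter₂.mpr fun x hx => ?_
      have a1 := h x _ (QuotientGroup.eq.mp hx)
      rw [mul_inv_cancel_left, abs_lt] at a1
      have a2 := abs_lt.mp (show |f v - f x0| < ε from hv)
      constructor <;> linarith [a1.1, a1.2, a2.1, a2.2])
  refine ⟨⟨fun x => u (QuotientGroup.mk x),
    u.continuous.comp (isOpenQuotientMap_mk L).continuous⟩, fun x y hy => ?_, fun x => ?_⟩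
  · show u _ = u _
    rw [QuotientGroup.mk_mul_of_mem x hy]
  · have := mem_iInter₂.mp (hu (QuotientGroup.mk x)) x rfl
    show |f x - u (QuotientGroup.mk x)| ≤ _
    rw [abs_le]
    constructor <;> linarith [this.1, this.2]

theorem M_chain (μ0 : C_c(G, ℝ) → ℝ) {c : Set (Subgroup G)} (hc : IsChain (· ≤ ·) c)
    (hne : c.Nonempty) (h1 : ∀ L ∈ c, IsClosed (sig L)) (h2 : ∀ L ∈ c, L ≤ NL ⊤)
    (h3 : ∀ L ∈ c, (M μ0 L).Nonempty) : (M μ0 (sInf c)).Nonempty := by
  have := hne.to_subtype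
  obtain ⟨μ, hμ⟩ := IsCompact.nonempty_iInter_of_directed_nonempty_isCompact_isClosed
    (fun L : c => M μ0 L.1) (fun L L' => by
      rcases hc.total L.2 L'.2 with h | h
      · exact ⟨L, Subset.rfl, M_anti μ0 h⟩
      · exact ⟨L', M_anti μ0 h, Subset.rfl⟩)
    (fun L => h3 _ L.2) (fun L => isCompact_M _ _) (fun L => isClosed_M _ _)
  have hμ' : ∀ L ∈ c, μ ∈ M μ0 L := fun L hL => mem_iInter.mp hμ ⟨L, hL⟩
  obtain ⟨L0, hL0⟩ := hne
  have h0 := hμ' L0 hL0
  refine ⟨μ, h0.1, h0.2.1, h0.2.2.1, h0.2.2.2.1, fun f hf g => ?_⟩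
  obtain ⟨χ, k1, k2, k3⟩ := cutoff f.hasCompactSupport.isCompact
  have hχ : μ (R g χ) = μ χ := h0.2.2.2.2 χ (Inv_anti (h2 _ hL0) k1) g
  have key : ∀ ε : ℝ, 0 < ε → |μ (R g f) - μ f| ≤ 4 * ε * μ χ := by
    intro ε hε
    obtain ⟨L, hL, hosc⟩ := small_osc hc ⟨L0, hL0⟩ h1 h2 hf hε
    obtain ⟨u, u1, u2⟩ := approx (h1 L hL) hε hosc
    have hv : u • χ ∈ Inv L := fun x y hy => by
      show u (x * y) * χ (x * y) = u x * χ x
      rw [u1 x y hy, k1 x y (h2 L hL hy)]
    have e := (hμ' L hL).2.2.2.2 _ hv g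
    have b : ∀ x, |f x - u x * χ x| ≤ 2 * ε * χ x := by
      intro x
      have : f x - u x * χ x = (f x - u x) * χ x := by
        by_cases hx : x ∈ tsupport f
        · rw [k3 x hx]; ring
        · rw [image_eq_zero_of_notMem_tsupport hx]; ring
      rw [this, abs_mul, abs_of_nonneg (k2 x)]
      exact mul_le_mul_of_nonneg_right (u2 x) (k2 x)
    have b1 : f ≤ u • χ + (2 * ε) • χ := fun x => by
      have := (abs_le.mp (b x)).2
      show f x ≤ u x * χ x + 2 * ε * χ x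
      linarith
    have b2 : u • χ ≤ f + (2 * ε) • χ := fun x => by
      have := (abs_le.mp (b x)).1
      show u x * χ x ≤ f x + 2 * ε * χ x
      linarith
    have b3 : R g f ≤ R g (u • χ) + (2 * ε) • R g χ := fun x => b1 (x * g)
    have b4 : R g (u • χ) ≤ R g f + (2 * ε) • R g χ := fun x => b2 (x * g)
    have c1 := M_mono h0 b1
    have c2 := M_mono h0 b2
    have c3 := M_mono h0 b3
    have c4 := M_mono h0 b4
    rw [h0.1, h0.2.1] at c1 c2 c3 c4
    rw [hχ] at c3 c4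
    rw [abs_le]
    constructor <;> linarith
  have hχ0 : 0 ≤ μ χ := h0.2.2.1 χ k2
  refine sub_eq_zero.mp (abs_nonpos_iff.mp (le_of_forall_pos_le_add fun δ hδ => ?_))
  have := key (δ / (4 * (μ χ + 1))) (by positivity)
  refine this.trans ?_
  rw [zero_add, show 4 * (δ / (4 * (μ χ + 1))) * μ χ = δ * (μ χ / (μ χ + 1)) by field_simp]
  exact mul_le_of_le_one_right hδ.le ((div_le_one (by positivity)).mpr (by linarith))

end Pool.Agent.P.MP_27be11_an
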