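import Pool.Agent.P.MP_27be11_an.Func

set_option autoImplicit false
set_option linter.unusedSectionVars false

namespace Pool.Agent.P.MP_27be11_an

open Set Filter Topology CompactlySupported MeasureTheory

variable {G : Type*} [Group G] [TopologicalSpace G] [T2Space G] [LocallyCompactSpace G]
  [SigmaCompactSpace G] [Adm G]

instance instNLNormal (L : Subgroup G) [L.Normal] : (NL L).Normal := NL_normal L

/-- the group `L / N(L)` inside `G / N(L)` -/
abbrev QL (L : Subgroup G) [L.Normal] : Subgroup (G ⧸ NL L) := L.map (QuotientGroup.mk' (NL L))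

/-- the projection of `L` onto `L / N(L)` -/
def rho (L : Subgroup G) [L.Normal] : L →* QL L := (QuotientGroup.mk' (NL L)).subgroupMap L

theorem rho_surj (L : Subgroup G) [L.Normal] : Function.Surjective (rho L) :=
  MonoidHom.subgroupMap_surjective _ _

theorem rho_val (L : Subgroup G) [L.Normal] (y : L) :
    (rho L y : G ⧸ NL L) = QuotientGroup.mk (y : G) := rfl

theorem continuous_rho (L : Subgroup G) [L.Normal] : Continuous (rho L) :=
  ((isOpenQuotientMap_mk (NL L)).continuous.comp continuous_subtype_val).subtype_mk _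

theorem proper_rho (L : Subgroup G) [L.Normal] (hc : IsCompact (L : Set G)) :
    IsProperMap (rho L) := by
  have := t2_quot (NL_closed L)
  have : CompactSpace L := isCompact_iff_compactSpace.mp hc
  exact (continuous_rho L).isProperMap

theorem quot_rho (L : Subgroup G) [L.Normal] (hc : IsCompact (L : Set G)) :
    IsQuotientMap (rho L) :=
  (proper_rho L hc).isClosedMap.isQuotientMap (continuous_rho L) (rho_surj L)

theorem quot_rho_prod (L : Subgroup G) [L.Normal] (hc : IsCompact (L : Set G)) :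
    IsQuotientMap (Prod.map (id : G → G) (rho L)) :=
  (isProperMap_id.prodMap (proper_rho L hc)).isClosedMap.isQuotientMap
    (continuous_id.prodMap (continuous_rho L)) (Function.surjective_id.prodMap (rho_surj L))

theorem topGroup_QL (L : Subgroup G) [L.Normal] (hc : IsCompact (L : Set G)) :
    IsTopologicalGroup (QL L) := by
  have h2 : IsQuotientMap (Prod.map (rho L) (rho L)) :=
    ((proper_rho L hc).prodMap (proper_rho L hc)).isClosedMap.isQuotientMap
      ((continuous_rho L).prodMap (continuous_rho L)) ((rho_surj L).prodMap (rho_surj L))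
  refine { continuous_mul := ?_, continuous_inv := ?_ }
  · refine h2.continuous_iff.mpr (continuous_induced_rng.mpr ?_)
    exact (continuous_mul_mk L).comp
      ((continuous_subtype_val.comp continuous_fst).prodMk continuous_snd)
  · exact (quot_rho L hc).continuous_iff.mpr (continuous_induced_rng.mpr (continuous_inv_mk L))

/-- conjugation on `L / N(L)` -/
def conjQ (L : Subgroup G) [hL : L.Normal] (g : G) : QL L →* QL L where
  toFun q := ⟨(QuotientGroup.mk g⁻¹ : G ⧸ NL L) * q * (QuotientGroup.mk g⁻¹ : G ⧸ NL L)⁻¹,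
    (hL.map _ (QuotientGroup.mk'_surjective _)).conj_mem _ q.2 _⟩
  map_one' := by ext; simp
  map_mul' := fun a b => by ext; simp [mul_assoc]

theorem conjQ_surj (L : Subgroup G) [hL : L.Normal] (g : G) : Function.Surjective (conjQ L g) :=
  fun q => ⟨conjQ L g⁻¹ q, by ext; simp [conjQ, mul_assoc]⟩

theorem continuous_conjQ (L : Subgroup G) [hL : L.Normal] (hc : IsCompact (L : Set G)) (g : G) :
    Continuous (conjQ L g) :=
  (quot_rho L hc).continuous_iff.mpr (continuous_induced_rng.mpr (continuous_conj_mk L hc g⁻¹))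

theorem continuous_kernel (L : Subgroup G) [hL : L.Normal] (hc : IsCompact (L : Set G))
    {f : C_c(G, ℝ)} (hf : f ∈ Inv (NL L)) :
    Continuous fun p : G × QL L => f (p.1 * (p.2 : G ⧸ NL L).out) := by
  refine (quot_rho_prod L hc).continuous_iff.mpr ?_
  have := (continuous_out hf).comp (continuous_mul_mk L)
  refine this.congr fun p => ?_
  have h1 := apply_out hf 1 (p.1 * p.2)
  have h2 := apply_out hf p.1 p.2
  rw [one_mul, one_mul] at h1
  exact h1.trans h2.symm

theorem out_mem (L : Subgroup G) [hL : L.Normal] (hcl : IsClosed (sig L)) (q : QL L) :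
    (q : G ⧸ NL L).out ∈ L := by
  obtain ⟨y, rfl⟩ := rho_surj L q
  obtain ⟨n, hn⟩ := QuotientGroup.mk_out_eq_mul (NL L) (y : G)
  rw [rho_val, hn]
  exact L.mul_mem y.2 (NL_le hcl n.2)

theorem exists_avg (L : Subgroup G) [hL : L.Normal] (hc : IsCompact (L : Set G))
    (hcl : IsClosed (sig L)) : ∃ A : Inv (NL L) →ₗ[ℝ] C_c(G, ℝ), (∀ f, A f ∈ Inv L) ∧
      (∀ f : Inv (NL L), 0 ≤ (f : C_c(G, ℝ)) → 0 ≤ A f) ∧
      (∀ f : Inv (NL L), (f : C_c(G, ℝ)) ∈ Inv L → A f = f) ∧
      ∀ (f : Inv (NL L)) g, A ⟨R g f, R_mem_Inv f.2 g⟩ = R g (A f) := by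
  have := t2_quot (NL_closed L)
  have : CompactSpace L := isCompact_iff_compactSpace.mp hc
  have : CompactSpace (QL L) := (rho_surj L).compactSpace (continuous_rho L)
  have := topGroup_QL L hc
  borelize ↥(QL L)
  let m : Measure (QL L) := Measure.haarMeasure ⊤
  have : IsProbabilityMeasure m := ⟨Measure.haarMeasure_self⟩
  have hint : ∀ (f : Inv (NL L)) (x : G),
      Integrable (fun q : QL L => f.1 (x * (q : G ⧸ NL L).out)) m := fun f x =>
    ((continuous_kernel L hc f.2).comp (Continuous.prodMk_right x)).integrable_of_hasCompactSupport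
      (HasCompactSupport.of_compactSpace _)
  have hcont : ∀ f : Inv (NL L),
      Continuous fun x : G => ∫ q : QL L, f.1 (x * (q : G ⧸ NL L).out) ∂m := fun f =>
    continuousOn_univ.mp (continuousOn_integral_of_compact_support isCompact_univ
      (continuous_kernel L hc f.2).continuousOn fun _ _ _ h => absurd (mem_univ _) h)
  have hsupp : ∀ f : Inv (NL L),
      HasCompactSupport fun x : G => ∫ q : QL L, f.1 (x * (q : G ⧸ NL L).out) ∂m := by
    intro f
    obtain ⟨K, hK, hK'⟩ := exists_compact_mul f.1.hasCompactSupport.isCompact hc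
    refine HasCompactSupport.intro hK fun x hx => ?_
    have : ∀ q : QL L, f.1 (x * (q : G ⧸ NL L).out) = 0 := by
      intro q
      by_contra h
      exact hx (by simpa using hK' _ (subset_tsupport _ h) _ (L.inv_mem (out_mem L hcl q)))
    simp [this]
  refine ⟨{ toFun := fun f => ⟨⟨_, hcont f⟩, hsupp f⟩
            map_add' := fun f h => ?_
            map_smul' := fun c f => ?_ }, fun f x y hy => ?_, fun f hf x => ?_, fun f hf => ?_,
    fun f g => ?_⟩
  · ext x
    exact integral_add (hint f x) (hint h x)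
  · ext x
    exact integral_const_mul c _
  · show ∫ q : QL L, f.1 (x * y * (q : G ⧸ NL L).out) ∂m =
      ∫ q : QL L, f.1 (x * (q : G ⧸ NL L).out) ∂m
    rw [← integral_mul_left_eq_self (fun q : QL L => f.1 (x * (q : G ⧸ NL L).out))
      (rho L ⟨y, hy⟩)]
    refine integral_congr_ae (Eventually.of_forall fun q => ?_)
    obtain ⟨z, rfl⟩ := rho_surj L q
    show f.1 (x * y * (QuotientGroup.mk (z : G) : G ⧸ NL L).out) =
      f.1 (x * (QuotientGroup.mk (y * z : G) : G ⧸ NL L).out)
    rw [apply_out f.2, apply_out f.2, mul_assoc]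
  · exact integral_nonneg fun q => hf _
  · ext x
    show ∫ q : QL L, f.1 (x * (q : G ⧸ NL L).out) ∂m = f.1 x
    simp [fun q => hf x _ (out_mem L hcl q)]
  · ext x
    show ∫ q : QL L, f.1 (x * (q : G ⧸ NL L).out * g) ∂m =
      ∫ q : QL L, f.1 (x * g * (q : G ⧸ NL L).out) ∂m
    have hcj := continuous_conjQ L hc g
    have := Measure.isHaarMeasure_map_of_isFiniteMeasure m (conjQ L g) hcj (conjQ_surj L g)
    have : IsProbabilityMeasure (m.map (conjQ L g)) :=
      Measure.isProbabilityMeasure_map hcj.measurable.aemeasurable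
    have e : m.map (conjQ L g) = m := Measure.isHaarMeasure_eq_of_isProbabilityMeasure _ _
    have e2 := integral_map (μ := m) hcj.measurable.aemeasurable
      (f := fun q : QL L => f.1 (x * g * (q : G ⧸ NL L).out))
      (by rw [e]; exact (hint f (x * g)).aestronglyMeasurable)
    rw [e] at e2
    rw [e2]
    refine integral_congr_ae (Eventually.of_forall fun q => ?_)
    obtain ⟨z, rfl⟩ := rho_surj L q
    show f.1 (x * (QuotientGroup.mk (z : G) : G ⧸ NL L).out * g) =
      f.1 (x * g * (QuotientGroup.mk (g⁻¹ * z * g⁻¹⁻¹ : G) : G ⧸ NL L).out)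
    have := apply_out (R_mem_Inv f.2 g) x z
    rw [R_apply, R_apply] at this
    rw [this, apply_out f.2]
    simp [mul_assoc]

theorem M_step (μ0 : C_c(G, ℝ) → ℝ) (L : Subgroup G) [hL : L.Normal] (hcl : IsClosed (sig L))
    (hle : L ≤ NL ⊤) (h : (M μ0 L).Nonempty) : (M μ0 (NL L)).Nonempty := by
  obtain ⟨μ, h⟩ := h
  obtain ⟨A, h1, h2, h3, h4⟩ := exists_avg L
    (isCompact_NL_top.of_isClosed_subset (isClosed_of_sig hcl) hle) hcl
  have hI : Inv (NL (⊤ : Subgroup G)) ≤ Inv (NL L) := Inv_anti ((NL_le hcl).trans hle)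
  let μl : C_c(G, ℝ) →ₗ[ℝ] ℝ := { toFun := μ, map_add' := h.1, map_smul' := h.2.1 }
  obtain ⟨ν, k1, k2⟩ := extend (Inv (NL L)) hI (μl ∘ₗ A) fun f hf => h.2.2.1 _ (h2 f hf)
  refine ⟨ν, ν.map_add, ν.map_smul, k2, fun f hf => ?_, fun f hf g => ?_⟩
  · rw [← h.2.2.2.1 f hf]
    exact (k1 ⟨f, hI hf⟩).trans (congrArg μ (h3 _ (Inv_anti hle hf)))
  · refine (k1 ⟨R g f, R_mem_Inv hf g⟩).trans (Eq.trans ?_ (k1 ⟨f, hf⟩).symm)
    exact (congrArg μ (h4 ⟨f, hf⟩ g)).trans (h.2.2.2.2 _ (h1 _) g)

end Pool.Agent.P.MP_27be11_an
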