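import Pool.Agent.P.MP_27be11_an.Namioka
import Pool.Agent.P.MP_27be11_an.Limit
import Pool.Agent.P.MP_27be11_an.Step

set_option autoImplicit false
set_option linter.unusedSectionVars false

namespace Pool.Agent.P.MP_27be11_an

open Set Filter Topology CompactlySupported MeasureTheory

variable {G : Type*} [Group G] [TopologicalSpace G] [T2Space G] [LocallyCompactSpace G]
  [SigmaCompactSpace G] [Adm G]

theorem topGroup_top : IsTopologicalGroup (G ⧸ NL (⊤ : Subgroup G)) := by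
  have hπ := isOpenQuotientMap_mk (NL (⊤ : Subgroup G))
  have hc : Continuous fun y : G => (⟨y, trivial⟩ : (⊤ : Subgroup G)) :=
    continuous_id.subtype_mk _
  refine { continuous_mul := ?_, continuous_inv := ?_ }
  · exact (hπ.prodMap hπ).isQuotientMap.continuous_iff.mpr
      ((continuous_mul_mk ⊤).comp (continuous_fst.prodMk (hc.comp continuous_snd)))
  · exact hπ.isQuotientMap.continuous_iff.mpr ((continuous_inv_mk ⊤).comp hc)

theorem M_base : ∃ μ0 : C_c(G, ℝ) → ℝ, (M μ0 (NL ⊤)).Nonempty ∧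
    ∃ χ ∈ Inv (NL (⊤ : Subgroup G)), μ0 χ ≠ 0 := by
  have := t2_quot (NL_closed (⊤ : Subgroup G))
  have := lc_quot (NL (⊤ : Subgroup G))
  have := topGroup_top (G := G)
  borelize (G ⧸ NL (⊤ : Subgroup G))
  let ν : Measure (G ⧸ NL (⊤ : Subgroup G)) := Measure.haar.inv
  have hs : ∀ f ∈ Inv (NL (⊤ : Subgroup G)),
      HasCompactSupport fun q : G ⧸ NL (⊤ : Subgroup G) => f q.out := by
    intro f _
    refine HasCompactSupport.intro (f.hasCompactSupport.isCompact.image
      (isOpenQuotientMap_mk _).continuous) fun q hq => ?_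
    by_contra h
    exact hq ⟨q.out, subset_tsupport _ h, QuotientGroup.out_eq' q⟩
  have hint : ∀ f : Inv (NL (⊤ : Subgroup G)),
      Integrable (fun q : G ⧸ NL (⊤ : Subgroup G) => f.1 q.out) ν := fun f =>
    (continuous_out f.2).integrable_of_hasCompactSupport (hs _ f.2)
  let φ : Inv (NL (⊤ : Subgroup G)) →ₗ[ℝ] ℝ :=
    { toFun := fun f => ∫ q, f.1 q.out ∂ν
      map_add' := fun f h => integral_add (hint f) (hint h)
      map_smul' := fun c f => integral_const_mul c _ }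
  obtain ⟨μ, h1, h2⟩ := extend _ le_rfl φ fun f hf => integral_nonneg fun q => hf _
  refine ⟨μ, ⟨μ, μ.map_add, μ.map_smul, h2, fun _ _ => rfl, fun f hf g => ?_⟩, ?_⟩
  · refine (h1 ⟨R g f, R_mem_Inv hf g⟩).trans (Eq.trans ?_ (h1 ⟨f, hf⟩).symm)
    show ∫ q, f (q.out * g) ∂ν = ∫ q, f q.out ∂ν
    rw [← integral_mul_right_eq_self (fun q : G ⧸ NL (⊤ : Subgroup G) => f q.out)
      (QuotientGroup.mk g)]
    refine integral_congr_ae (Eventually.of_forall fun q => ?_)
    obtain ⟨z, rfl⟩ := QuotientGroup.mk_surjective q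
    have a1 := apply_out (R_mem_Inv hf g) 1 z
    have a2 := apply_out hf 1 (z * g)
    rw [R_apply, R_apply, one_mul, one_mul] at a1
    rw [one_mul, one_mul] at a2
    exact a1.trans a2.symm
  · obtain ⟨χ, k1, k2, k3⟩ := cutoff (isCompact_singleton (x := (1 : G)))
    refine ⟨χ, k1, ne_of_gt ((h1 ⟨χ, k1⟩).symm ▸ ?_)⟩
    refine (continuous_out k1).integral_pos_of_hasCompactSupport_nonneg_nonzero (hs _ k1)
      (fun q => k2 _) (x := QuotientGroup.mk 1) ?_
    have a := apply_out k1 1 1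
    rw [one_mul, one_mul, k3 1 rfl] at a
    rw [a]
    exact one_ne_zero

theorem M_bot (μ0 : C_c(G, ℝ) → ℝ) (h : (M μ0 (NL ⊤)).Nonempty) : (M μ0 ⊥).Nonempty := by
  let S : Set (Subgroup G)ᵒᵈ := {L | (OrderDual.ofDual L).Normal ∧
    IsClosed (sig (OrderDual.ofDual L)) ∧ OrderDual.ofDual L ≤ NL ⊤ ∧
      (M μ0 (OrderDual.ofDual L)).Nonempty}
  obtain ⟨L, -, hL⟩ := zorn_le_nonempty₀ S (fun c hcS hc y hy => by
    let c' : Set (Subgroup G) := c
    have hc' : IsChain (· ≤ ·) c' := hc.symm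
    refine ⟨OrderDual.toDual (sInf c'), ⟨⟨fun a ha g => ?_⟩, ?_, ?_, ?_⟩, fun z hz => ?_⟩
    · exact Subgroup.mem_sInf.mpr fun L hL => (hcS hL).1.conj_mem _ (Subgroup.mem_sInf.mp ha L hL) g
    · have : sig (sInf c') = ⋂ L ∈ c', sig L := by
        ext s
        simp only [mem_iInter]
        exact Subgroup.mem_sInf
      exact this ▸ isClosed_biInter fun L hL => (hcS hL).2.1
    · exact (sInf_le (s := c') hy).trans (hcS hy).2.2.1
    · exact M_chain μ0 hc' ⟨y, hy⟩ (fun L hL => (hcS hL).2.1) (fun L hL => (hcS hL).2.2.1)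
        fun L hL => (hcS hL).2.2.2
    · exact sInf_le (s := c') hz) (OrderDual.toDual (NL ⊤))
    ⟨NL_normal ⊤, NL_closed ⊤, le_rfl, h⟩
  obtain ⟨h1, h2, h3, h4⟩ := hL.prop
  have h5 : OrderDual.ofDual L ≤ NL (OrderDual.ofDual L) :=
    hL.le_of_ge (y := OrderDual.toDual (NL (OrderDual.ofDual L)))
      ⟨NL_normal _, NL_closed _, (NL_le h2).trans h3, M_step μ0 _ h2 h3 h4⟩ (NL_le h2)
  rwa [eq_bot_of_le_NL h5] at h4

theorem exists_haar [MeasurableSpace G] [BorelSpace G] :
    ∃ μ : Measure G, μ ≠ 0 ∧ μ.Regular ∧ μ.InnerRegular ∧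
      ∀ E, MeasurableSet E → ∀ g : G, μ ((fun x => x * g) '' E) = μ E := by
  obtain ⟨μ0, h0, χ, hχ, hχ0⟩ := M_base (G := G)
  obtain ⟨μ, h⟩ := M_bot μ0 h0
  let Λ : C_c(G, ℝ) →ₚ[ℝ] ℝ :=
    { toFun := μ, map_add' := h.1, map_smul' := h.2.1, monotone' := fun _ _ hf => M_mono h hf }
  refine ⟨RealRMK.rieszMeasure Λ, fun h0 => hχ0 ?_, inferInstance, inferInstance,
    fun E hE g => ?_⟩
  · have := RealRMK.integral_rieszMeasure Λ χ
    rw [h0, integral_zero_measure] at this
    exact (h.2.2.2.1 χ hχ).symm.trans this.symm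
  · have := Measure.Regular.map (μ := RealRMK.rieszMeasure Λ) (rHomeo g⁻¹)
    have e : (RealRMK.rieszMeasure Λ).map (rHomeo g⁻¹) = RealRMK.rieszMeasure Λ := by
      refine Measure.ext_of_integral_eq_on_compactlySupported fun f => ?_
      rw [integral_map (rHomeo g⁻¹).continuous.measurable.aemeasurable
        (map_continuous f).aestronglyMeasurable, RealRMK.integral_rieszMeasure]
      exact (RealRMK.integral_rieszMeasure Λ (R g⁻¹ f)).trans
        (h.2.2.2.2 f (fun x y hy => by rw [Subgroup.mem_bot.mp hy, mul_one]) g⁻¹)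
    conv_rhs => rw [← e, Measure.map_apply (rHomeo g⁻¹).continuous.measurable hE]
    rw [image_mul_right]
    rfl

end Pool.Agent.P.MP_27be11_an
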