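import Pool.Agent.P.MP_27be11_an.Sigma

set_option autoImplicit false
set_option linter.unusedSectionVars false

namespace Pool.Agent.P.MP_27be11_an

open Set Filter Topology Pointwise

variable {G : Type*} [Group G] [TopologicalSpace G] [T2Space G] [LocallyCompactSpace G]
  [SigmaCompactSpace G] [Adm G]

theorem closure_mul_mem {H : Subgroup G} (hH : H ≤ centre G) {a b : G}
    (ha : a ∈ closure (H : Set G)) (hb : b ∈ closure (H : Set G)) :
    a * b ∈ closure (H : Set G) := by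
  have := map_mem_closure (cR b) ha (t := closure (H : Set G)) fun l hl =>
    map_mem_closure (f := fun y => l * y) (hH hl) hb fun y hy => H.mul_mem hl hy
  rwa [closure_closure] at this

theorem closure_inv_mem {H : Subgroup G} (hH : H ≤ centre G) {g : G}
    (hg : g ∈ closure (H : Set G)) : g⁻¹ ∈ closure (H : Set G) := by
  obtain ⟨𝒰, h1, h2⟩ := mem_closure_iff_ultrafilter.mp hg
  obtain ⟨B, hB, hgB⟩ := exists_compact_mem_nhds g
  obtain ⟨K, hK, hBK⟩ := exists_compact_inv hB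
  obtain ⟨h, -, hh⟩ := hK.ultrafilter_le_nhds (𝒰.map fun y => y⁻¹)
    (le_principal_iff.mpr (mem_map.mpr (mem_of_superset (h2 hgB) fun y hy => hBK y hy)))
  have hh' : Tendsto (fun y : G => y⁻¹) 𝒰 (𝓝 h) := hh
  have hhH : h ∈ closure (H : Set G) :=
    mem_closure_of_tendsto hh' (mem_of_superset h1 fun y hy => H.inv_mem hy)
  have k1 : Tendsto (fun y : G => toSig y⁻¹) 𝒰 (𝓝 (toSig g⁻¹)) :=
    ((sInv.comp continuous_toSig).tendsto g).mono_left h2
  have k2 : Tendsto (fun y : G => toSig y⁻¹) 𝒰 (𝓝 (toSig h)) :=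
    (continuous_toSig.tendsto h).comp hh'
  have hs := limits_congr (L := ⊤) (Eventually.of_forall fun _ => trivial) trivial k1 k2
  rw [inv_inv] at hs
  set S : Set G := closure (H : Set G) ∩ (NL (⊤ : Subgroup G) : Set G) with hS
  have hSc : IsCompact S := isCompact_NL_top.inter_left isClosed_closure
  have hSm : ∀ a ∈ S, ∀ b ∈ S, a * b ∈ S := fun a ha b hb =>
    ⟨closure_mul_mem hH ha.1 hb.1, (NL ⊤).mul_mem ha.2 hb.2⟩
  have hsS : g * h ∈ S := ⟨closure_mul_mem hH hg hhH, hs⟩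
  obtain ⟨m, ⟨t, ht, rfl⟩, hm⟩ := exists_idempotent_in_compact_subsemigroup cR
    ((fun t => t * (g * h)) '' S) ⟨_, _, hsS, rfl⟩ (hSc.image (cR _)) (by
      rintro _ ⟨a, ha, rfl⟩ _ ⟨b, hb, rfl⟩
      exact ⟨a * (g * h) * b, hSm _ (hSm _ ha _ hsS) _ hb, by simp [mul_assoc]⟩)
  have hm1 : t * (g * h) = 1 := by simpa using hm
  have e : g⁻¹ = h * t := by
    have : t = (g * h)⁻¹ := eq_inv_of_mul_eq_one_left hm1
    rw [this]; simp
  rw [e]
  exact closure_mul_mem hH hhH ht.1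

theorem transit {L : Subgroup G} (hN : L ≤ NL L) {B : Set (G × G)} (hB : IsOpen B) {x0 y0 : G}
    (h0 : (x0, y0) ∈ B) (hL : x0⁻¹ * y0 ∈ L) {U : Set G} (hU : IsOpen U) (h1 : (1 : G) ∈ U) :
    ∃ l ∈ centre G, ∃ x y, (x, y) ∈ B ∧ x⁻¹ * y ∈ L ∧ l * x ∈ U ∧ l * y ∈ U := by
  have h2 := hN hL _ ((isOpenMap_phi (U ×ˢ U) (hU.prod hU)).mem_nhds
    ⟨(1, 1), ⟨h1, h1⟩, by simp [phi]⟩)
  obtain ⟨s, ⟨⟨x, y⟩, hxy, rfl⟩, ⟨⟨u, v⟩, ⟨hu, hv⟩, h⟩, hs⟩ :=
    mem_closure_iff.mp h2 _ (isOpenMap_phi B hB) ⟨(x0, y0), h0, rfl⟩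
  have h' : u⁻¹ * v = x⁻¹ * y := toSig.injective h
  obtain ⟨l, hl, k1, k2⟩ := exists_centre (x := x) (y := y) hU hU (h := u * x⁻¹)
    (by simpa using hu) (by rw [mul_assoc, ← h']; simpa using hv)
  exact ⟨l, hl, x, y, hxy, hs, k1, k2⟩

/-- Namioka's step -/
theorem eq_bot_of_le_NL {L : Subgroup G} (hN : L ≤ NL L) : L = ⊥ := by
  by_contra hne
  obtain ⟨⟨l0, hl0⟩, hl1⟩ := Subgroup.ne_bot_iff_exists_ne_one.mp hne
  have hl1' : l0 ≠ 1 := fun h => hl1 (Subtype.ext h)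
  obtain ⟨f, hf1, hf0, -⟩ := exists_continuous_one_zero_of_isCompact
    (isCompact_singleton (x := (1 : G))) (isClosed_singleton (x := l0))
    (disjoint_singleton.mpr hl1'.symm)
  obtain ⟨C, hC, hC1⟩ := exists_compact_mem_nhds (1 : G)
  let St := {p : Set (G × G) × Set G // IsCompact p.1 ∧
    (∃ x y, (x, y) ∈ interior p.1 ∧ x⁻¹ * y ∈ L) ∧ p.2.Finite ∧ p.2 ⊆ centre G}
  have step : ∀ (n : ℕ) (s : St), ∃ (l : G) (s' : St), s'.1.1 ⊆ s.1.1 ∧
      s'.1.2 = insert l (s.1.2 ∪ s.1.2 * s.1.2 ∪ s.1.2⁻¹) ∧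
      ∀ p ∈ s'.1.1, l * p.1 ∈ C ∧ ∀ μ ∈ s.1.2,
        |f (μ * (l * p.1)) - f (μ * (l * p.2))| ≤ 1 / ((n : ℝ) + 1) := by
    rintro n ⟨⟨K, F⟩, hK, ⟨x0, y0, h0, hL⟩, hF, hFc⟩
    let U : Set G := interior C ∩ ⋂ μ ∈ F, {u | |f (μ * u) - f μ| < 1 / ((n : ℝ) + 1) / 2}
    have hU : IsOpen U := by
      refine isOpen_interior.inter (hF.isOpen_biInter fun μ hμ => ?_)
      have hμ' : Continuous fun y : G => μ * y := hFc hμ
      exact isOpen_lt (by fun_prop) continuous_const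
    have hU1 : (1 : G) ∈ U := by
      refine ⟨mem_interior_iff_mem_nhds.mpr hC1, mem_iInter₂.mpr fun μ _ => ?_⟩
      show |f (μ * 1) - f μ| < _
      rw [mul_one, sub_self, abs_zero]; positivity
    obtain ⟨l, hl, x, y, hxy, hxyL, k1, k2⟩ := transit hN isOpen_interior h0 hL hU hU1
    have hl' : Continuous fun t : G => l * t := hl
    have hO : IsOpen (interior K ∩ (((fun t => l * t) ⁻¹' U) ×ˢ ((fun t => l * t) ⁻¹' U))) :=
      isOpen_interior.inter ((hU.preimage hl').prod (hU.preimage hl'))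
    obtain ⟨K', hK', hint, hsub⟩ := exists_compact_subset hO (x := (x, y)) ⟨hxy, k1, k2⟩
    refine ⟨l, ⟨(K', insert l (F ∪ F * F ∪ F⁻¹)), hK', ⟨x, y, hint, hxyL⟩,
      ((hF.union (hF.mul hF)).union hF.inv).insert l, ?_⟩,
      fun p hp => interior_subset (hsub hp).1, rfl, fun p hp => ?_⟩
    · rintro a (rfl | (ha | ⟨b, hb, c, hc, rfl⟩) | ha)
      · exact hl
      · exact hFc ha
      · exact (centre G).mul_mem (hFc hb) (hFc hc)
      · exact (centre G).inv_mem_iff.mp (hFc ha)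
    · obtain ⟨-, a1, a2⟩ := hsub hp
      refine ⟨interior_subset a1.1, fun μ hμ => ?_⟩
      have b1 : |f (μ * (l * p.1)) - f μ| < 1 / ((n : ℝ) + 1) / 2 := mem_iInter₂.mp a1.2 μ hμ
      have b2 : |f (μ * (l * p.2)) - f μ| < 1 / ((n : ℝ) + 1) / 2 := mem_iInter₂.mp a2.2 μ hμ
      rw [abs_lt] at b1 b2
      rw [abs_le]
      constructor <;> linarith [b1.1, b1.2, b2.1, b2.2]
  choose lam nx h1 h2 h3 using step
  have hO : IsOpen {p : G × G | f p.1 ≠ f p.2} := isOpen_ne_fun (by fun_prop) (by fun_prop)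
  obtain ⟨K0, hK0, hint0, hsub0⟩ := exists_compact_subset hO (x := (1, l0)) (by
    show f 1 ≠ f l0
    rw [hf1 rfl, hf0 rfl]; simp)
  let s : ℕ → St := fun n => Nat.rec
    ⟨(K0, {1}), hK0, ⟨1, l0, hint0, by simpa using hl0⟩, finite_singleton _, by simp⟩
    (fun n s => nx n s) n
  have hs : ∀ n, s (n + 1) = nx n (s n) := fun n => rfl
  obtain ⟨⟨x, y⟩, hxy⟩ := IsCompact.nonempty_iInter_of_sequence_nonempty_isCompact_isClosed
    (fun n => (s n).1.1) (fun n => by rw [hs]; exact h1 n _)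
    (fun n => by
      obtain ⟨x, y, h, -⟩ := (s n).2.2.1
      exact ⟨_, interior_subset h⟩)
    (s 0).2.1 (fun n => (s n).2.1.isClosed)
  have hxy' : ∀ n, (x, y) ∈ (s n).1.1 := mem_iInter.mp hxy
  have hmono : Monotone fun n => (s n).1.2 := monotone_nat_of_le_succ fun n => by
    rw [hs, h2]
    exact fun a ha => Or.inr (Or.inl (Or.inl ha))
  let H : Subgroup G :=
    { carrier := ⋃ n, (s n).1.2
      one_mem' := mem_iUnion.mpr ⟨0, rfl⟩
      mul_mem' := by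
        intro a b ha hb
        obtain ⟨m, hm⟩ := mem_iUnion.mp ha
        obtain ⟨n, hn⟩ := mem_iUnion.mp hb
        refine mem_iUnion.mpr ⟨max m n + 1, ?_⟩
        rw [hs, h2]
        exact Or.inr (Or.inl (Or.inr
          ⟨a, hmono (le_max_left m n) hm, b, hmono (le_max_right m n) hn, rfl⟩))
      inv_mem' := by
        intro a ha
        obtain ⟨m, hm⟩ := mem_iUnion.mp ha
        refine mem_iUnion.mpr ⟨m + 1, ?_⟩
        rw [hs, h2]
        exact Or.inr (Or.inr (by simpa using hm)) }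
  have hH : H ≤ centre G := fun a ha => by
    obtain ⟨m, hm⟩ := mem_iUnion.mp ha
    exact (s m).2.2.2.2 hm
  let l : ℕ → G := fun n => lam n (s n)
  have hlH : ∀ n, l n ∈ H := fun n => mem_iUnion.mpr ⟨n + 1, by rw [hs, h2]; exact Or.inl rfl⟩
  have h3' := fun n => h3 n (s n) (x, y) (by rw [← hs]; exact hxy' (n + 1))
  obtain ⟨g, -, hg⟩ := (hC.image (cR x⁻¹)).ultrafilter_le_nhds ((hyperfilter ℕ).map l)
    (le_principal_iff.mpr (mem_map.mpr (univ_mem' fun n => ⟨l n * x, (h3' n).1, by simp⟩)))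
  have hg' : Tendsto l (hyperfilter ℕ) (𝓝 g) := hg
  have hgH : g ∈ closure (H : Set G) := mem_closure_of_tendsto hg' (Eventually.of_forall hlH)
  have key : ∀ μ ∈ H, f (μ * (g * x)) = f (μ * (g * y)) := by
    intro μ hμ
    have hμ' : Continuous fun t : G => μ * t := hH hμ
    obtain ⟨m, hm⟩ := mem_iUnion.mp hμ
    have c1 : Continuous fun t : G => |f (μ * (t * x)) - f (μ * (t * y))| :=
      ((f.continuous.comp (hμ'.comp (cR x))).sub (f.continuous.comp (hμ'.comp (cR y)))).abs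
    have t1 := (c1.tendsto g).comp hg'
    have t2 : Tendsto (fun n : ℕ => 1 / ((n : ℝ) + 1)) (hyperfilter ℕ) (𝓝 0) :=
      tendsto_one_div_add_atTop_nhds_zero_nat.mono_left Nat.hyperfilter_le_atTop
    have t3 := le_of_tendsto_of_tendsto t1 t2 (Nat.hyperfilter_le_atTop
      ((eventually_ge_atTop m).mono fun n hn => (h3' n).2 μ (hmono hn hm)))
    exact sub_eq_zero.mp (abs_nonpos_iff.mp t3)
  have hcl : IsClosed {μ : G | f (μ * (g * x)) = f (μ * (g * y))} :=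
    isClosed_eq (f.continuous.comp (cR _)) (f.continuous.comp (cR _))
  have := closure_minimal (t := {μ : G | f (μ * (g * x)) = f (μ * (g * y))}) key hcl
    (closure_inv_mem hH hgH)
  exact hsub0 (hxy' 0) (by simpa using this)

end Pool.Agent.P.MP_27be11_an
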