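import Pool.Agent.P.MP_27be11_an.Basic

set_option autoImplicit false
set_option linter.unusedSectionVars false

namespace Pool.Agent.P.MP_27be11_an

open Set Filter Topology

/-- the group with its sigma-topology -/
def Sig (G : Type*) : Type _ := G

instance {G : Type*} [h : Group G] : Group (Sig G) := h

/-- the identity map to the copy with the sigma-topology -/
def toSig {G : Type*} [Group G] : G ≃* Sig G := MulEquiv.refl G

/-- the map `(x, y) ↦ x⁻¹ y` -/
def phi {G : Type*} [Group G] (p : G × G) : Sig G := toSig (p.1⁻¹ * p.2)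

instance {G : Type*} [Group G] [TopologicalSpace G] : TopologicalSpace (Sig G) :=
  TopologicalSpace.coinduced phi inferInstance

variable {G : Type*} [Group G] [TopologicalSpace G] [T2Space G] [LocallyCompactSpace G]
  [SigmaCompactSpace G] [Adm G]

theorem continuous_phi : Continuous (phi : G × G → Sig G) := continuous_coinduced_rng

theorem continuous_toSig : Continuous (toSig : G → Sig G) := by
  have : (toSig : G → Sig G) = phi ∘ fun y => (1, y) := by
    ext y; simp [phi]
  rw [this]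
  exact continuous_phi.comp (by fun_prop)

theorem isOpenMap_phi : IsOpenMap (phi : G × G → Sig G) := by
  intro B hB
  refine isOpen_coinduced.mpr ?_
  rw [isOpen_iff_mem_nhds]
  rintro ⟨x, y⟩ ⟨⟨u, v⟩, huv, h⟩
  obtain ⟨U, V, hU, hV, hu, hv, hUV⟩ := isOpen_prod_iff.mp hB u v huv
  have h' : u⁻¹ * v = x⁻¹ * y := toSig.injective h
  obtain ⟨l, hl, h1, h2⟩ := exists_centre (x := x) (y := y) hU hV (h := u * x⁻¹)
    (by simpa using hu) (by rw [mul_assoc, ← h']; simpa using hv)
  have hl' : Continuous fun t : G => l * t := hl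
  refine mem_of_superset (prod_mem_nhds ((hU.preimage hl').mem_nhds h1)
    ((hV.preimage hl').mem_nhds h2)) ?_
  rintro ⟨a, b⟩ ⟨ha, hb⟩
  refine ⟨(l * a, l * b), hUV ⟨ha, hb⟩, ?_⟩
  simp [phi, mul_assoc]

theorem sR (g : Sig G) : Continuous fun s : Sig G => s * g := by
  refine continuous_coinduced_dom.mpr ?_
  have : (fun s : Sig G => s * g) ∘ phi = phi ∘ fun p : G × G => (p.1, p.2 * toSig.symm g) := by
    ext p; simp [phi, mul_assoc]
  rw [this]
  exact continuous_phi.comp (continuous_fst.prodMk ((cR _).comp continuous_snd))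

theorem sInv : Continuous fun s : Sig G => s⁻¹ := by
  refine continuous_coinduced_dom.mpr ?_
  have : (fun s : Sig G => s⁻¹) ∘ phi = phi ∘ Prod.swap := by
    ext p; simp [phi]
  rw [this]
  exact continuous_phi.comp continuous_swap

theorem sL (g : Sig G) : Continuous fun s : Sig G => g * s := by
  have : (fun s : Sig G => g * s) = (fun s => s⁻¹) ∘ (fun s => s * g⁻¹) ∘ fun s => s⁻¹ := by
    ext s; simp
  rw [this]
  exact sInv.comp ((sR _).comp sInv)

/-- a subgroup as a subset of the copy with the sigma-topology -/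
def sig (L : Subgroup G) : Set (Sig G) := {s | toSig.symm s ∈ L}

theorem mem_sig {L : Subgroup G} {x : G} : toSig x ∈ sig L ↔ x ∈ L := Iff.rfl

theorem mul_mem_closure {L : Subgroup G} {n : Sig G}
    (hn : ∀ U ∈ 𝓝 (1 : Sig G), n ∈ closure (U ∩ sig L)) {U : Set (Sig G)} (hU : IsOpen U)
    {u : Sig G} (hu : u ∈ U ∩ sig L) : u * n ∈ closure (U ∩ sig L) := by
  have h1 := hn ((fun s => u * s) ⁻¹' U) ((hU.preimage (sL u)).mem_nhds (by simpa using hu.1))
  refine map_mem_closure (sL u) h1 ?_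
  rintro s ⟨hs1, hs2⟩
  exact ⟨hs1, L.mul_mem hu.2 hs2⟩

/-- the subgroup `N(L)` -/
def NL (L : Subgroup G) : Subgroup G where
  carrier := {x | ∀ U ∈ 𝓝 (1 : Sig G), toSig x ∈ closure (U ∩ sig L)}
  one_mem' := fun U hU => subset_closure ⟨mem_of_mem_nhds hU, L.one_mem⟩
  mul_mem' := by
    intro a b ha hb U hU
    obtain ⟨V, hVU, hV, h1⟩ := mem_nhds_iff.mp hU
    refine closure_mono (inter_subset_inter_left _ hVU) ?_
    have := map_mem_closure (sR (toSig b)) (ha V (hV.mem_nhds h1))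
      (t := closure (V ∩ sig L)) fun s hs => mul_mem_closure hb hV hs
    rwa [closure_closure] at this
  inv_mem' := by
    intro a ha U hU
    have h1 := ha ((fun s => s⁻¹) ⁻¹' U) (sInv.continuousAt.preimage_mem_nhds (by simpa using hU))
    have h2 := map_mem_closure sInv h1 (t := U ∩ sig L) fun s hs => ⟨hs.1, L.inv_mem hs.2⟩
    exact h2

theorem mem_NL {L : Subgroup G} {x : G} :
    x ∈ NL L ↔ ∀ U ∈ 𝓝 (1 : Sig G), toSig x ∈ closure (U ∩ sig L) := Iff.rfl

theorem NL_normal (L : Subgroup G) [hL : L.Normal] : (NL L).Normal := by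
  refine ⟨fun a ha g U hU => ?_⟩
  have hc : Continuous fun s : Sig G => toSig g * s * (toSig g)⁻¹ := (sR _).comp (sL _)
  have h1 := ha _ (hc.continuousAt.preimage_mem_nhds (t := U) (by simpa using hU))
  have h2 := map_mem_closure hc h1 (t := U ∩ sig L) fun s hs => ⟨hs.1, hL.conj_mem _ hs.2 g⟩
  exact h2

theorem NL_closed (L : Subgroup G) : IsClosed (sig (NL L)) := by
  have : sig (NL L) = ⋂ U ∈ 𝓝 (1 : Sig G), closure (U ∩ sig L) := by
    ext s; simp only [mem_iInter]; rfl
  rw [this]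
  exact isClosed_biInter fun _ _ => isClosed_closure

theorem NL_le {L : Subgroup G} (hL : IsClosed (sig L)) : NL L ≤ L := by
  intro x hx
  have := hx univ univ_mem
  rwa [univ_inter, hL.closure_eq] at this

theorem isClosed_of_sig {L : Subgroup G} (hL : IsClosed (sig L)) : IsClosed (L : Set G) :=
  hL.preimage continuous_toSig

/-- two sigma-limits of the same net in `L` are congruent modulo `N(L)` -/
theorem limits_congr {L : Subgroup G} {ι : Type*} {F : Filter ι} [F.NeBot] {s : ι → Sig G}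
    {a b : G} (hs : ∀ᶠ i in F, s i ∈ sig L) (ha : a ∈ L) (h1 : Tendsto s F (𝓝 (toSig a)))
    (h2 : Tendsto s F (𝓝 (toSig b))) : a⁻¹ * b ∈ NL L := by
  intro U hU
  obtain ⟨V, hVU, hV, hV1⟩ := mem_nhds_iff.mp hU
  refine closure_mono (inter_subset_inter_left _ hVU) ?_
  have k1 : Tendsto (fun i => (toSig a)⁻¹ * s i) F (𝓝 1) := by
    have := ((sL (toSig a)⁻¹).tendsto _).comp h1
    simpa [Function.comp_def] using this
  have k2 : Tendsto (fun i => (toSig a)⁻¹ * s i) F (𝓝 (toSig (a⁻¹ * b))) := by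
    have := ((sL (toSig a)⁻¹).tendsto _).comp h2
    simpa [Function.comp_def] using this
  refine mem_closure_of_tendsto k2 ?_
  filter_upwards [hs, k1 (hV.mem_nhds hV1)] with i hi1 hi2
  exact ⟨hi2, L.mul_mem (L.inv_mem ha) hi1⟩

theorem isOpenQuotientMap_mk (L : Subgroup G) :
    IsOpenQuotientMap (QuotientGroup.mk : G → G ⧸ L) := by
  refine ⟨QuotientGroup.mk_surjective, continuous_quot_mk, fun U hU => ?_⟩
  refine isOpen_coinduced.mpr ?_
  have : (QuotientGroup.mk : G → G ⧸ L) ⁻¹' (QuotientGroup.mk '' U) =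
      ⋃ l : L, (fun x => x * (l : G)) ⁻¹' U := by
    ext x
    simp only [mem_preimage, mem_image, mem_iUnion]
    constructor
    · rintro ⟨u, hu, h⟩
      exact ⟨⟨x⁻¹ * u, QuotientGroup.eq.mp h.symm⟩, by simpa using hu⟩
    · rintro ⟨l, hl⟩
      exact ⟨_, hl, QuotientGroup.mk_mul_of_mem x l.2⟩
  exact this ▸ isOpen_iUnion fun l => hU.preimage (cR _)

theorem t2_quot {L : Subgroup G} (hL : IsClosed (sig L)) : T2Space (G ⧸ L) := by
  rw [t2Space_iff_of_isOpenQuotientMap (isOpenQuotientMap_mk L)]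
  have : {q : G × G | (QuotientGroup.mk q.1 : G ⧸ L) = QuotientGroup.mk q.2} = phi ⁻¹' sig L := by
    ext q
    exact QuotientGroup.eq
  rw [this]
  exact hL.preimage continuous_phi

/-- the key continuity lemma -/
theorem tendsto_mk {L : Subgroup G} {ι : Type*} {F : Filter ι} {x z : ι → G} {x0 y0 : G}
    {K : Set G} (hK : IsCompact K) (hx : Tendsto x F (𝓝 x0)) (hz : ∀ᶠ i in F, z i ∈ K)
    (hL : ∀ᶠ i in F, (x i)⁻¹ * z i ∈ L) (hy0 : y0 ∈ L)
    (hy : Tendsto (fun i => toSig ((x i)⁻¹ * z i)) F (𝓝 (toSig y0))) :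
    Tendsto (fun i => (QuotientGroup.mk (z i) : G ⧸ NL L)) F (𝓝 (QuotientGroup.mk (x0 * y0))) := by
  rw [tendsto_iff_ultrafilter]
  intro 𝒰 h𝒰
  obtain ⟨z0, -, hz0⟩ := hK.ultrafilter_le_nhds (𝒰.map z)
    (le_principal_iff.mpr (h𝒰 hz))
  have hz0' : Tendsto z 𝒰 (𝓝 z0) := hz0
  have h1 : Tendsto (fun i => toSig ((x i)⁻¹ * z i)) 𝒰 (𝓝 (toSig (x0⁻¹ * z0))) :=
    (continuous_phi.tendsto (x0, z0)).comp ((hx.mono_left h𝒰).prodMk_nhds hz0')
  have h2 := limits_congr (L := L) (h𝒰 hL) hy0 (hy.mono_left h𝒰) h1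
  have h3 : (QuotientGroup.mk (x0 * y0) : G ⧸ NL L) = QuotientGroup.mk z0 :=
    QuotientGroup.eq.mpr (by simpa [mul_assoc] using h2)
  rw [h3]
  exact (continuous_quot_mk.tendsto z0).comp hz0'

theorem continuous_mul_mk (L : Subgroup G) :
    Continuous fun p : G × L => (QuotientGroup.mk (p.1 * p.2) : G ⧸ NL L) := by
  rw [continuous_iff_continuousAt]
  rintro ⟨x0, y0⟩
  obtain ⟨A, hA, hxA⟩ := exists_compact_mem_nhds x0
  obtain ⟨B, hB, hyB⟩ := exists_compact_mem_nhds (y0 : G)
  obtain ⟨K, hK, hAB⟩ := exists_compact_mul hA hB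
  have hc : Continuous fun p : G × L => (p.2 : G) := by fun_prop
  refine tendsto_mk (x := fun p : G × L => p.1) hK (continuous_fst.tendsto _) ?_ ?_ y0.2 ?_
  · filter_upwards [continuous_fst.continuousAt.preimage_mem_nhds (x := (x0, y0)) hxA,
      hc.continuousAt.preimage_mem_nhds (x := (x0, y0)) hyB] with p h1 h2
    exact hAB _ h1 _ h2
  · exact Eventually.of_forall fun p => by simp
  · have := (continuous_toSig.comp hc).tendsto (x0, y0)
    simpa [Function.comp_def] using this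

theorem continuous_inv_mk (L : Subgroup G) :
    Continuous fun y : L => (QuotientGroup.mk ((y : G)⁻¹) : G ⧸ NL L) := by
  rw [continuous_iff_continuousAt]
  intro y0
  obtain ⟨B, hB, hyB⟩ := exists_compact_mem_nhds (y0 : G)
  obtain ⟨K, hK, hBK⟩ := exists_compact_inv hB
  have := tendsto_mk (L := L) (F := 𝓝 y0) (x := fun _ => (1 : G)) (z := fun y : L => (y : G)⁻¹)
    (y0 := (y0 : G)⁻¹) hK tendsto_const_nhds ?_ ?_ (L.inv_mem y0.2) ?_
  · rwa [one_mul] at this
  · filter_upwards [continuous_subtype_val.continuousAt.preimage_mem_nhds (x := y0) hyB] with p h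
    exact hBK _ h
  · exact Eventually.of_forall fun p => by simp
  · have := (sInv.comp (continuous_toSig.comp continuous_subtype_val)).tendsto y0
    simpa [Function.comp_def] using this

theorem continuous_conj_mk (L : Subgroup G) [hL : L.Normal] (hc : IsCompact (L : Set G)) (g : G) :
    Continuous fun y : L => (QuotientGroup.mk (g * y * g⁻¹) : G ⧸ NL L) := by
  rw [continuous_iff_continuousAt]
  intro y0
  have := tendsto_mk (L := L) (F := 𝓝 y0) (x := fun _ => (1 : G))
    (z := fun y : L => g * (y : G) * g⁻¹)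
    (y0 := g * (y0 : G) * g⁻¹) hc tendsto_const_nhds ?_ ?_ (hL.conj_mem _ y0.2 g) ?_
  · rwa [one_mul] at this
  · exact Eventually.of_forall fun p => hL.conj_mem _ p.2 g
  · exact Eventually.of_forall fun p => by simpa using hL.conj_mem _ p.2 g
  · have := ((sR (toSig g)⁻¹).comp ((sL (toSig g)).comp
      (continuous_toSig.comp continuous_subtype_val))).tendsto y0
    simpa [Function.comp_def] using this

theorem isCompact_NL_top : IsCompact (NL (⊤ : Subgroup G) : Set G) := by
  obtain ⟨C, hC, h1⟩ := exists_compact_mem_nhds (1 : G)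
  obtain ⟨D, hD, hCD⟩ := exists_compact_inv hC
  obtain ⟨E, hE, hDC⟩ := exists_compact_mul hD hC
  obtain ⟨E', hE', hEE⟩ := exists_compact_mul hE hE
  refine hE'.of_isClosed_subset (isClosed_of_sig (NL_closed _)) fun l hl => ?_
  have h1' : (1 : G) ∈ interior C := mem_interior_iff_mem_nhds.mpr h1
  have o1 := isOpenMap_phi (interior C ×ˢ interior C) (isOpen_interior.prod isOpen_interior)
  have o2 := isOpenMap_phi (interior C ×ˢ ((fun t => t * l⁻¹) ⁻¹' interior C))
    (isOpen_interior.prod (isOpen_interior.preimage (cR _)))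
  have h2 := hl _ (o1.mem_nhds ⟨(1, 1), ⟨h1', h1'⟩, by simp [phi]⟩)
  obtain ⟨s, ⟨⟨u, v⟩, ⟨hu, hv⟩, rfl⟩, ⟨⟨u', v'⟩, ⟨hu', hv'⟩, h⟩, -⟩ :=
    mem_closure_iff.mp h2 _ o2 ⟨(1, l), ⟨h1', by simpa using h1'⟩, by simp [phi]⟩
  have h' : u'⁻¹ * v' = u⁻¹ * v := toSig.injective h
  have e : l = ((v * l⁻¹)⁻¹ * u) * (u'⁻¹ * v') := by rw [h']; simp [mul_assoc]
  rw [e]
  exact hEE _ (hDC _ (hCD _ (interior_subset hv)) _ (interior_subset hu)) _
    (hDC _ (hCD _ (interior_subset hu')) _ (interior_subset hv'))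

end Pool.Agent.P.MP_27be11_an
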